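import Pool.Agent.Y393.RS.Stmts

/-!
# RS8 (helper256 for helper393): concentration for the mixture
-/

set_option autoImplicit false

namespace Pool.Agent.Y256.RS

open Finset Pool.Agent.Y393.RS

section basic

variable {n : ℕ} {q : Sym2 (Fin n) → ℝ}

theorem tw_nonneg (hq : ∀ e, 0 ≤ q e ∧ q e ≤ 1) (e : Sym2 (Fin n)) (a : Fin 3) : 0 ≤ tw q e a := by
  have h1 := (hq e).1
  have h2 := (hq e).2
  have h3 := min_le_left (q e) (1 - q e)
  have h4 := min_le_right (q e) (1 - q e)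
  have h5 : 0 ≤ min (q e) (1 - q e) := le_min h1 (by linarith)
  unfold tw
  split_ifs <;> linarith

theorem tw_sum (e : Sym2 (Fin n)) : ∑ a, tw q e a = 1 := by
  rw [Fin.sum_univ_three]
  unfold tw
  simp
  ring

/-- one factor -/
theorem one_factor (hq : ∀ e, 0 ≤ q e ∧ q e ≤ 1) (e : Sym2 (Fin n)) (z : Fin 3 → ℝ)
    (hz : ∀ a, 0 ≤ z a ∧ z a ≤ 2) {s : ℝ} (hs : |s| ≤ 1 / 2) :
    ∑ a, tw q e a * Real.exp (s * (z a - ∑ b, tw q e b * z b)) ≤ Real.exp (4 * s ^ 2) := by
  set m : ℝ := ∑ b, tw q e b * z b with hm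
  have hm0 : 0 ≤ m := Finset.sum_nonneg fun b _ => mul_nonneg (tw_nonneg hq e b) (hz b).1
  have hm2 : m ≤ 2 := by
    have h1 : m ≤ ∑ b, tw q e b * 2 :=
      Finset.sum_le_sum fun b _ => mul_le_mul_of_nonneg_left (hz b).2 (tw_nonneg hq e b)
    rw [← Finset.sum_mul, tw_sum, one_mul] at h1
    exact h1
  have key : ∀ a, Real.exp (s * (z a - m)) ≤ 1 + s * (z a - m) + 4 * s ^ 2 := by
    intro a
    have h1 : |z a - m| ≤ 2 := by
      rw [abs_le]
      have := hz a
      constructor <;> linarith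
    have h2 : |s * (z a - m)| ≤ 1 := by
      rw [abs_mul]
      calc |s| * |z a - m| ≤ 1 / 2 * 2 := mul_le_mul hs h1 (abs_nonneg _) (by norm_num)
        _ = 1 := by norm_num
    have h3 := (abs_le.1 (Real.abs_exp_sub_one_sub_id_le h2)).2
    have h4 : (s * (z a - m)) ^ 2 ≤ 4 * s ^ 2 := by
      rw [mul_pow]
      have h5 : (z a - m) ^ 2 ≤ 4 := by
        have := sq_le_sq' (by linarith [(abs_le.1 h1).1] : -2 ≤ z a - m) (abs_le.1 h1).2
        linarith
      nlinarith [sq_nonneg s]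
    linarith
  clear_value m
  calc ∑ a, tw q e a * Real.exp (s * (z a - m))
      ≤ ∑ a, tw q e a * (1 + s * (z a - m) + 4 * s ^ 2) :=
        Finset.sum_le_sum fun a _ => mul_le_mul_of_nonneg_left (key a) (tw_nonneg hq e a)
    _ = (∑ a, tw q e a) * (1 - s * m + 4 * s ^ 2) + s * ∑ a, tw q e a * z a := by
        rw [Finset.sum_mul, Finset.mul_sum, ← Finset.sum_add_distrib]
        exact Finset.sum_congr rfl fun a _ => by ring
    _ = 1 + 4 * s ^ 2 := by
        rw [tw_sum, ← hm]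
        ring
    _ ≤ Real.exp (4 * s ^ 2) := by
        have := Real.add_one_le_exp (4 * s ^ 2)
        linarith

/-- the edges at a vertex -/
def Ed (v : Fin n) : Finset (Sym2 (Fin n)) := (univ.erase v).image (fun w => s(v, w))

theorem inj_ed (v : Fin n) : Function.Injective (fun w : Fin n => s(v, w)) := by
  intro w w' h
  rcases Sym2.eq_iff.1 h with ⟨_, h1⟩ | ⟨h1, h2⟩
  · exact h1
  · exact h2.trans h1

theorem sum_ed (v : Fin n) (f : Sym2 (Fin n) → ℝ) : ∑ w ∈ univ.erase v, f s(v, w) = ∑ e ∈ Ed v, f e := by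
  unfold Ed
  rw [Finset.sum_image fun w _ w' _ h => inj_ed v h]

theorem card_ed (v : Fin n) : (Ed v).card ≤ n := by
  unfold Ed
  refine Finset.card_image_le.trans ?_
  exact (Finset.card_le_univ _).trans (by simp)

/-- the exponential moment -/
theorem mgf (hq : ∀ e, 0 ≤ q e ∧ q e ≤ 1) (v : Fin n) (z : Fin 3 → ℝ)
    (hz : ∀ a, 0 ≤ z a ∧ z a ≤ 2) {s : ℝ} (hs : |s| ≤ 1 / 2) :
    ∑ θ : Sym2 (Fin n) → Fin 3, (∏ e, tw q e (θ e)) *
      Real.exp (s * (∑ w ∈ univ.erase v, z (θ s(v, w)) - ∑ w ∈ univ.erase v, ∑ a, tw q s(v, w) a * z a)) ≤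
      Real.exp (4 * s ^ 2 * n) := by
  classical
  have h1 : ∀ θ : Sym2 (Fin n) → Fin 3, (∏ e, tw q e (θ e)) *
      Real.exp (s * (∑ w ∈ univ.erase v, z (θ s(v, w)) - ∑ w ∈ univ.erase v, ∑ a, tw q s(v, w) a * z a)) =
      ∏ e, (tw q e (θ e) * (if e ∈ Ed v then Real.exp (s * (z (θ e) - ∑ b, tw q e b * z b)) else 1)) := by
    intro θ
    rw [sum_ed v (fun e => z (θ e)), sum_ed v (fun e => ∑ a, tw q e a * z a), ← Finset.sum_sub_distrib,
      Finset.mul_sum, Real.exp_sum, Finset.prod_mul_distrib]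
    congr 1
    rw [Finset.prod_ite_mem, Finset.univ_inter]
  simp only [h1]
  have h2 : ∑ θ : Sym2 (Fin n) → Fin 3,
      ∏ e, (tw q e (θ e) * (if e ∈ Ed v then Real.exp (s * (z (θ e) - ∑ b, tw q e b * z b)) else 1)) =
      ∏ e, ∑ a, (tw q e a * (if e ∈ Ed v then Real.exp (s * (z a - ∑ b, tw q e b * z b)) else 1)) := by
    rw [Finset.prod_univ_sum, Fintype.piFinset_univ]
  rw [h2]
  calc ∏ e, ∑ a, (tw q e a * (if e ∈ Ed v then Real.exp (s * (z a - ∑ b, tw q e b * z b)) else 1))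
      ≤ ∏ e, (if e ∈ Ed v then Real.exp (4 * s ^ 2) else 1) := by
        refine Finset.prod_le_prod (fun e _ => Finset.sum_nonneg fun a _ => mul_nonneg (tw_nonneg hq e a) ?_)
          fun e _ => ?_
        · split_ifs
          · exact (Real.exp_pos _).le
          · exact zero_le_one
        · split_ifs with he
          · exact one_factor hq e z hz hs
          · simp only [mul_one]
            exact (tw_sum e).le
    _ = Real.exp (4 * s ^ 2) ^ (Ed v).card := by
        rw [Finset.prod_ite_mem, Finset.univ_inter, Finset.prod_const]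
    _ ≤ Real.exp (4 * s ^ 2 * n) := by
        rw [← Real.exp_nat_mul]
        apply Real.exp_le_exp.2
        have h3 : ((Ed v).card : ℝ) ≤ n := by exact_mod_cast card_ed v
        nlinarith [sq_nonneg s]

/-- degrees -/
theorem dgr_eq (θ : Sym2 (Fin n) → Fin 3) (a : Fin 3) (v : Fin n) :
    (dgr (FG a θ) v : ℝ) = ∑ w ∈ univ.erase v, (if θ s(v, w) = a then (1 : ℝ) else 0) := by
  classical
  unfold dgr nbr
  rw [Finset.sum_boole]
  congr 2
  ext w
  simp only [Finset.mem_filter, Finset.mem_univ, true_and, Finset.mem_erase, and_true, FG]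
  exact and_congr_left fun _ => ne_comm

def z1 : Fin 3 → ℝ := ![0, 0, 1]
def z2 : Fin 3 → ℝ := ![2, 0, 1]

theorem hz1 : ∀ a, 0 ≤ z1 a ∧ z1 a ≤ 2 := by
  intro a
  fin_cases a <;> simp [z1]

theorem hz2 : ∀ a, 0 ≤ z2 a ∧ z2 a ≤ 2 := by
  intro a
  fin_cases a <;> simp [z2]

theorem dgr_z1 (θ : Sym2 (Fin n) → Fin 3) (v : Fin n) :
    (dgr (FG 2 θ) v : ℝ) = ∑ w ∈ univ.erase v, z1 (θ s(v, w)) := by
  rw [dgr_eq]
  refine Finset.sum_congr rfl fun w _ => ?_
  generalize θ s(v, w) = a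
  fin_cases a <;> simp [z1]

theorem mean_z2 (θ : Sym2 (Fin n) → Fin 3) (v : Fin n) :
    mean2 (FG 0 θ) (FG 2 θ) v = ∑ w ∈ univ.erase v, z2 (θ s(v, w)) := by
  unfold mean2
  rw [dgr_eq, dgr_eq, Finset.mul_sum, ← Finset.sum_add_distrib]
  refine Finset.sum_congr rfl fun w _ => ?_
  generalize θ s(v, w) = a
  fin_cases a <;> simp [z2]

theorem mu1 (v : Fin n) : ∑ w ∈ univ.erase v, ∑ a, tw q s(v, w) a * z1 a = 2 * un q v := by
  unfold un
  rw [Finset.mul_sum]
  refine Finset.sum_congr rfl fun w _ => ?_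
  rw [Fin.sum_univ_three]
  simp [tw, z1]

theorem mu2 (v : Fin n) : ∑ w ∈ univ.erase v, ∑ a, tw q s(v, w) a * z2 a = 2 * ed q v := by
  unfold ed
  rw [Finset.mul_sum]
  refine Finset.sum_congr rfl fun w _ => ?_
  rw [Fin.sum_univ_three]
  simp [tw, z2]
  ring

/-- the two tails -/
theorem tails (hq : ∀ e, 0 ≤ q e ∧ q e ≤ 1) (v : Fin n) (z : Fin 3 → ℝ)
    (hz : ∀ a, 0 ≤ z a ∧ z a ≤ 2) {s t : ℝ} (hs : |s| ≤ 1 / 2) :
    ∑ θ : Sym2 (Fin n) → Fin 3, (∏ e, tw q e (θ e)) *
      (Real.exp (s * (∑ w ∈ univ.erase v, z (θ s(v, w)) - ∑ w ∈ univ.erase v, ∑ a, tw q s(v, w) a * z a) - t) +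
       Real.exp (-s * (∑ w ∈ univ.erase v, z (θ s(v, w)) - ∑ w ∈ univ.erase v, ∑ a, tw q s(v, w) a * z a) - t)) ≤
      2 * Real.exp (4 * s ^ 2 * n - t) := by
  have h1 := mgf hq v z hz hs
  have h2 := mgf hq v z hz (show |-s| ≤ 1 / 2 by rwa [abs_neg])
  have e1 : ∀ x y : ℝ, Real.exp (x - y) = Real.exp x * Real.exp (-y) := fun x y => by
    rw [← Real.exp_add]; rfl
  simp only [e1, ← add_mul, ← mul_assoc]
  rw [← Finset.sum_mul]
  refine mul_le_mul_of_nonneg_right ?_ (Real.exp_pos _).le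
  simp only [mul_add]
  rw [Finset.sum_add_distrib]
  rw [neg_sq] at h2
  linarith

end basic

/-- **RS8** -/
theorem mixconc : S_mixconc := by
  classical
  intro p δ hp hδ
  set p' : ℝ := min p 1 with hp'
  have hp'0 : 0 < p' := lt_min hp one_pos
  have hp'1 : p' ≤ 1 := min_le_right _ _
  have hp'p : p' ≤ p := min_le_left _ _
  set c : ℝ := p' ^ 2 / 64 with hc
  have hc0 : 0 < c := by positivity
  -- the choice of `n₀`
  have hlim : Filter.Tendsto (fun n : ℕ => 4 * ((n : ℝ) * Real.exp (-c * n))) Filter.atTop (nhds 0) := by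
    have h1 : Filter.Tendsto (fun x : ℝ => x ^ (1 : ℝ) * Real.exp (-c * x)) Filter.atTop (nhds 0) :=
      tendsto_rpow_mul_exp_neg_mul_atTop_nhds_zero 1 c hc0
    have h2 := (h1.comp tendsto_natCast_atTop_atTop).const_mul 4
    simpa using h2
  obtain ⟨n₀, hn₀⟩ := Filter.eventually_atTop.1 (hlim.eventually (gt_mem_nhds hδ))
  refine ⟨n₀, fun n hn q hq => ?_⟩
  have hn' := hn₀ n hn
  obtain ⟨hq1, hq2⟩ := hq
  set s : ℝ := p' / 16 with hs
  have hs0 : 0 < s := by positivity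
  have hs1 : |s| ≤ 1 / 2 := by
    rw [abs_of_pos hs0, hs]
    linarith
  set t : ℝ := s * (p / 2 * n) with ht
  have hn0 : (0 : ℝ) ≤ n := Nat.cast_nonneg n
  -- the pointwise bound
  have hpt : ∀ θ : Sym2 (Fin n) → Fin 3,
      (if Cond (p / 2) (FG 0 θ) (FG 2 θ) then (0 : ℝ) else ∏ e, tw q e (θ e)) ≤
      ∑ v : Fin n, ((∏ e, tw q e (θ e)) *
        (Real.exp (s * (∑ w ∈ univ.erase v, z1 (θ s(v, w)) -
          ∑ w ∈ univ.erase v, ∑ a, tw q s(v, w) a * z1 a) - t) +
         Real.exp (-s * (∑ w ∈ univ.erase v, z1 (θ s(v, w)) -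
          ∑ w ∈ univ.erase v, ∑ a, tw q s(v, w) a * z1 a) - t)) +
        (∏ e, tw q e (θ e)) *
        (Real.exp (s * (∑ w ∈ univ.erase v, z2 (θ s(v, w)) -
          ∑ w ∈ univ.erase v, ∑ a, tw q s(v, w) a * z2 a) - t) +
         Real.exp (-s * (∑ w ∈ univ.erase v, z2 (θ s(v, w)) -
          ∑ w ∈ univ.erase v, ∑ a, tw q s(v, w) a * z2 a) - t))) := by
    intro θ
    have hW : 0 ≤ ∏ e, tw q e (θ e) := Finset.prod_nonneg fun e _ => tw_nonneg hq1 e _
    have hnn : ∀ v : Fin n, 0 ≤ (∏ e, tw q e (θ e)) *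
        (Real.exp (s * (∑ w ∈ univ.erase v, z1 (θ s(v, w)) -
          ∑ w ∈ univ.erase v, ∑ a, tw q s(v, w) a * z1 a) - t) +
         Real.exp (-s * (∑ w ∈ univ.erase v, z1 (θ s(v, w)) -
          ∑ w ∈ univ.erase v, ∑ a, tw q s(v, w) a * z1 a) - t)) +
        (∏ e, tw q e (θ e)) *
        (Real.exp (s * (∑ w ∈ univ.erase v, z2 (θ s(v, w)) -
          ∑ w ∈ univ.erase v, ∑ a, tw q s(v, w) a * z2 a) - t) +
         Real.exp (-s * (∑ w ∈ univ.erase v, z2 (θ s(v, w)) -
          ∑ w ∈ univ.erase v, ∑ a, tw q s(v, w) a * z2 a) - t)) := fun v => by positivity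
    split_ifs with hcond
    · exact Finset.sum_nonneg fun v _ => hnn v
    · -- some vertex is bad
      have hbad : ∃ v : Fin n, p / 2 * n ≤ |(dgr (FG 2 θ) v : ℝ) - 2 * un q v| ∨
          p / 2 * n ≤ |mean2 (FG 0 θ) (FG 2 θ) v - 2 * ed q v| := by
        by_contra hno
        push Not at hno
        apply hcond
        refine ⟨?_, fun v => ?_⟩
        · rw [disjoint_iff_inf_le]
          intro u w h
          obtain ⟨h1, h2⟩ := h
          have h3 := h1.2.symm.trans h2.2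
          exact absurd h3 (by decide)
        · obtain ⟨h1, h2⟩ := hno v
          rw [abs_lt] at h1 h2
          rcases hq2 v with h3 | ⟨u, h3⟩
          · left
            nlinarith
          · right
            refine ⟨u, ?_⟩
            have h4 := (abs_lt.1 (hno u).2).1
            nlinarith
      obtain ⟨v, hv⟩ := hbad
      refine le_trans ?_ (Finset.single_le_sum (fun v _ => hnn v) (Finset.mem_univ v))
      rw [← dgr_z1, ← mean_z2, mu1, mu2]
      have hexp : ∀ D : ℝ, p / 2 * n ≤ |D| → 1 ≤ Real.exp (s * D - t) + Real.exp (-s * D - t) := by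
        intro D hD
        rcases abs_cases D with ⟨h1, _⟩ | ⟨h1, _⟩
        · have h2 : 0 ≤ s * D - t := by
            rw [ht, ← mul_sub]
            exact mul_nonneg hs0.le (by linarith)
          have h3 := Real.one_le_exp h2
          have h4 := Real.exp_pos (-s * D - t)
          linarith
        · have h2 : 0 ≤ -s * D - t := by
            rw [ht, show -s * D - s * (p / 2 * n) = s * (-D - p / 2 * n) by ring]
            exact mul_nonneg hs0.le (by linarith)
          have h3 := Real.one_le_exp h2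
          have h4 := Real.exp_pos (s * D - t)
          linarith
      rcases hv with hv | hv
      · have h1 := mul_le_mul_of_nonneg_left (hexp _ hv) hW
        rw [mul_one] at h1
        refine h1.trans (le_add_of_nonneg_right ?_)
        positivity
      · have h1 := mul_le_mul_of_nonneg_left (hexp _ hv) hW
        rw [mul_one] at h1
        refine h1.trans (le_add_of_nonneg_left ?_)
        positivity
  refine (Finset.sum_le_sum fun θ _ => hpt θ).trans ?_
  rw [Finset.sum_comm]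
  have hv : ∀ v : Fin n, ∑ θ : Sym2 (Fin n) → Fin 3, ((∏ e, tw q e (θ e)) *
        (Real.exp (s * (∑ w ∈ univ.erase v, z1 (θ s(v, w)) -
          ∑ w ∈ univ.erase v, ∑ a, tw q s(v, w) a * z1 a) - t) +
         Real.exp (-s * (∑ w ∈ univ.erase v, z1 (θ s(v, w)) -
          ∑ w ∈ univ.erase v, ∑ a, tw q s(v, w) a * z1 a) - t)) +
        (∏ e, tw q e (θ e)) *
        (Real.exp (s * (∑ w ∈ univ.erase v, z2 (θ s(v, w)) -
          ∑ w ∈ univ.erase v, ∑ a, tw q s(v, w) a * z2 a) - t) +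
         Real.exp (-s * (∑ w ∈ univ.erase v, z2 (θ s(v, w)) -
          ∑ w ∈ univ.erase v, ∑ a, tw q s(v, w) a * z2 a) - t))) ≤ 4 * Real.exp (-c * n) := by
    intro v
    rw [Finset.sum_add_distrib]
    have h1 := tails (t := t) hq1 v z1 hz1 hs1
    have h2 := tails (t := t) hq1 v z2 hz2 hs1
    have h3 : Real.exp (4 * s ^ 2 * n - t) ≤ Real.exp (-c * n) := by
      apply Real.exp_le_exp.2
      rw [ht, hs, hc]
      have h4 : 4 * (p' / 16) ^ 2 * (n : ℝ) - p' / 16 * (p / 2 * n) + p' ^ 2 / 64 * n =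
          (n : ℝ) * p' * (p' - p) / 32 := by ring
      have h5 : (n : ℝ) * p' * (p' - p) / 32 ≤ 0 := by
        have : (n : ℝ) * p' * (p' - p) ≤ 0 :=
          mul_nonpos_of_nonneg_of_nonpos (by positivity) (by linarith)
        linarith
      linarith
    linarith
  refine (Finset.sum_le_sum fun v _ => hv v).trans ?_
  rw [Finset.sum_const, Finset.card_univ, Fintype.card_fin, nsmul_eq_mul]
  have : (n : ℝ) * (4 * Real.exp (-c * n)) = 4 * ((n : ℝ) * Real.exp (-c * n)) := by ring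
  rw [this]
  exact hn'.le

end Pool.Agent.Y256.RS
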